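import Pool.Agent.WIR.StmtsC

/-!
WIR, row PAR: Parseval for the high frequency part.
-/

namespace Pool.Agent.WIR.H40

open Pool.Agent.WIR
open scoped BigOperators

theorem pj_hom (N : ℕ) (x : ZMod (3 ^ (N + 1))) :
    pj N (N + 1) x = ZMod.castHom (pow_dvd_pow 3 (Nat.le_succ N)) (ZMod (3 ^ N)) x := by
  rw [ZMod.castHom_apply, ZMod.cast_eq_val]
  rfl

theorem pj_fib (N : ℕ) (y : ZMod (3 ^ (N + 1))) :
    Finset.univ.filter (fun x => pj N (N + 1) x = pj N (N + 1) y) =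
      (Finset.range 3).image fun k : ℕ => y + ((k * 3 ^ N : ℕ) : ZMod (3 ^ (N + 1))) := by
  classical
  ext x
  rw [Finset.mem_filter, Finset.mem_image]
  constructor
  · rintro ⟨-, h⟩
    rw [pj_hom, pj_hom] at h
    have h1 : ZMod.castHom (pow_dvd_pow 3 (Nat.le_succ N)) (ZMod (3 ^ N)) (x - y) = 0 := by
      rw [map_sub, h, sub_self]
    rw [← pj_hom] at h1
    unfold pj at h1
    rw [ZMod.natCast_eq_zero_iff] at h1
    obtain ⟨k, hk⟩ := h1
    have h2 := (x - y).val_lt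
    rw [hk, pow_succ] at h2
    have h3 : k < 3 := lt_of_mul_lt_mul_left h2 (Nat.zero_le _)
    refine ⟨k, Finset.mem_range.2 h3, ?_⟩
    rw [mul_comm k, ← hk, ZMod.natCast_zmod_val]
    ring
  · rintro ⟨k, -, rfl⟩
    refine ⟨Finset.mem_univ _, ?_⟩
    rw [pj_hom, pj_hom, map_add, map_natCast]
    have : ((k * 3 ^ N : ℕ) : ZMod (3 ^ N)) = 0 := by
      rw [ZMod.natCast_eq_zero_iff]
      exact dvd_mul_left _ _
    rw [this, add_zero]

theorem pj_card (N : ℕ) (y : ZMod (3 ^ (N + 1))) :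
    (Finset.univ.filter (fun x => pj N (N + 1) x = pj N (N + 1) y)).card = 3 := by
  classical
  rw [pj_fib, Finset.card_image_of_injOn, Finset.card_range]
  intro a ha b hb h
  have ha' := Finset.mem_range.1 ha
  have hb' := Finset.mem_range.1 hb
  have h1 : ((a * 3 ^ N : ℕ) : ZMod (3 ^ (N + 1))) = ((b * 3 ^ N : ℕ) : ZMod (3 ^ (N + 1))) :=
    add_left_cancel h
  rw [ZMod.natCast_eq_natCast_iff', pow_succ', Nat.mul_mod_mul_right, Nat.mul_mod_mul_right] at h1
  have h2 := Nat.eq_of_mul_eq_mul_right (by positivity) h1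
  rwa [Nat.mod_eq_of_lt ha', Nat.mod_eq_of_lt hb'] at h2

theorem nonunit {N : ℕ} {ξ : ZMod (3 ^ (N + 1))} (h : ¬ IsUnit ξ) (k : ℕ) :
    ξ * ((k * 3 ^ N : ℕ) : ZMod (3 ^ (N + 1))) = 0 := by
  have h1 : ¬ Nat.Coprime ξ.val (3 ^ (N + 1)) := by
    intro hc
    apply h
    have := (ZMod.isUnit_iff_coprime ξ.val (3 ^ (N + 1))).2 hc
    rwa [ZMod.natCast_zmod_val] at this
  have h2 : 3 ∣ ξ.val := by
    by_contra h3
    apply h1
    exact (Nat.Coprime.pow_right _ ((Nat.Prime.coprime_iff_not_dvd Nat.prime_three).2 h3).symm)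
  obtain ⟨c, hc⟩ := h2
  have h3 : ξ = ((3 * c : ℕ) : ZMod (3 ^ (N + 1))) := by
    rw [← hc, ZMod.natCast_zmod_val]
  rw [h3, ← Nat.cast_mul, ZMod.natCast_eq_zero_iff]
  exact ⟨c * k, by ring⟩

theorem unit_ne {N : ℕ} {ξ : ZMod (3 ^ (N + 1))} (h : IsUnit ξ) :
    ZMod.stdAddChar (-(ξ * ((1 * 3 ^ N : ℕ) : ZMod (3 ^ (N + 1))))) ≠ 1 := by
  intro h1
  have h2 : ZMod.stdAddChar (-(ξ * ((1 * 3 ^ N : ℕ) : ZMod (3 ^ (N + 1))))) =
      ZMod.stdAddChar (0 : ZMod (3 ^ (N + 1))) := by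
    rw [h1, AddChar.map_zero_eq_one]
  have h3 := ZMod.injective_stdAddChar h2
  rw [neg_eq_zero] at h3
  have h4 := (h.mul_right_eq_zero).1 h3
  rw [ZMod.natCast_eq_zero_iff, one_mul] at h4
  have h5 := Nat.le_of_dvd (by positivity) h4
  have h6 : 3 ^ N < 3 ^ (N + 1) := Nat.pow_lt_pow_right (by norm_num) (Nat.lt_succ_self N)
  omega

theorem fib_sum {N : ℕ} (ξ y : ZMod (3 ^ (N + 1))) :
    ∑ x ∈ Finset.univ.filter (fun x => pj N (N + 1) x = pj N (N + 1) y),
      ZMod.stdAddChar (-(ξ * x)) = if IsUnit ξ then 0 else 3 * ZMod.stdAddChar (-(ξ * y)) := by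
  classical
  split_ifs with h
  · obtain ⟨e, he⟩ : ∃ e : ZMod (3 ^ (N + 1)), e = ((1 * 3 ^ N : ℕ) : ZMod (3 ^ (N + 1))) :=
      ⟨_, rfl⟩
    have hpe : ∀ x, pj N (N + 1) (x + e) = pj N (N + 1) x := by
      intro x
      rw [pj_hom, pj_hom, map_add, he, map_natCast]
      have : ((1 * 3 ^ N : ℕ) : ZMod (3 ^ N)) = 0 := by
        rw [ZMod.natCast_eq_zero_iff]
        exact dvd_mul_left _ _
      rw [this, add_zero]
    have h1 : ∑ x ∈ Finset.univ.filter (fun x => pj N (N + 1) x = pj N (N + 1) y),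
        ZMod.stdAddChar (-(ξ * x)) = ZMod.stdAddChar (-(ξ * e)) *
        ∑ x ∈ Finset.univ.filter (fun x => pj N (N + 1) x = pj N (N + 1) y),
          ZMod.stdAddChar (-(ξ * x)) := by
      rw [Finset.mul_sum, Finset.sum_filter, Finset.sum_filter]
      rw [← Equiv.sum_comp (Equiv.addRight e) (fun x => if pj N (N + 1) x = pj N (N + 1) y then
        ZMod.stdAddChar (-(ξ * x)) else 0)]
      refine Finset.sum_congr rfl fun x _ => ?_
      simp only [Equiv.coe_addRight, hpe]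
      by_cases hx : pj N (N + 1) x = pj N (N + 1) y
      · rw [if_pos hx, if_pos hx, ← AddChar.map_add_eq_mul]
        congr 1
        ring
      · rw [if_neg hx, if_neg hx]
    have h2 : (ZMod.stdAddChar (-(ξ * e)) - 1) *
        ∑ x ∈ Finset.univ.filter (fun x => pj N (N + 1) x = pj N (N + 1) y),
          ZMod.stdAddChar (-(ξ * x)) = 0 := by
      linear_combination -h1
    rcases mul_eq_zero.1 h2 with h3 | h3
    · exfalso
      rw [he] at h3
      exact unit_ne h (sub_eq_zero.1 h3)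
    · exact h3
  · have h1 : ∀ x ∈ Finset.univ.filter (fun x => pj N (N + 1) x = pj N (N + 1) y),
        ZMod.stdAddChar (-(ξ * x)) = ZMod.stdAddChar (-(ξ * y)) := by
      intro x hx
      rw [pj_fib, Finset.mem_image] at hx
      obtain ⟨k, -, rfl⟩ := hx
      rw [mul_add, nonunit h k, add_zero]
    rw [Finset.sum_congr rfl h1, Finset.sum_const, pj_card, nsmul_eq_mul]
    norm_num

theorem ft_HF (N : ℕ) (f : ZMod (3 ^ (N + 1)) → ℝ) (ξ : ZMod (3 ^ (N + 1))) :
    ft (N + 1) (HF N f) ξ = if IsUnit ξ then ft (N + 1) f ξ else 0 := by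
  classical
  have h1 : ft (N + 1) (HF N f) ξ = ft (N + 1) f ξ - (1 / 3) * ∑ y, (f y : ℂ) *
      ∑ x ∈ Finset.univ.filter (fun x => pj N (N + 1) x = pj N (N + 1) y),
        ZMod.stdAddChar (-(ξ * x)) := by
    unfold ft HF
    have h2 : ∑ y, (f y : ℂ) *
        ∑ x ∈ Finset.univ.filter (fun x => pj N (N + 1) x = pj N (N + 1) y),
          ZMod.stdAddChar (-(ξ * x)) =
        ∑ x, (∑ y ∈ Finset.univ.filter (fun y => pj N (N + 1) y = pj N (N + 1) x), (f y : ℂ)) *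
          ZMod.stdAddChar (-(ξ * x)) := by
      simp only [Finset.mul_sum, Finset.sum_mul, Finset.sum_filter]
      rw [Finset.sum_comm]
      refine Finset.sum_congr rfl fun x _ => Finset.sum_congr rfl fun y _ => ?_
      by_cases hxy : pj N (N + 1) x = pj N (N + 1) y
      · rw [if_pos hxy, if_pos hxy.symm]
      · rw [if_neg hxy, if_neg fun h => hxy h.symm, mul_zero, zero_mul]
    rw [h2, Finset.mul_sum, ← Finset.sum_sub_distrib]
    refine Finset.sum_congr rfl fun x _ => ?_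
    push_cast
    ring
  rw [h1]
  simp only [fib_sum]
  split_ifs with h
  · simp
  · have h3 : ∑ y, (f y : ℂ) * (3 * ZMod.stdAddChar (-(ξ * y))) = 3 * ft (N + 1) f ξ := by
      unfold ft
      rw [Finset.mul_sum]
      refine Finset.sum_congr rfl fun x _ => ?_
      ring
    rw [h3]
    ring

theorem par (hPLS : PlsStmt) : ParStmt := by
  classical
  intro N f X hX hT
  have h1 := hPLS (N + 1) (HF N f)
  have h2 : ∑ ξ, ‖ft (N + 1) (HF N f) ξ‖ ^ 2 =
      ∑ ξ ∈ Finset.univ.filter (fun ξ : ZMod (3 ^ (N + 1)) => IsUnit ξ),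
        ‖ft (N + 1) f ξ‖ ^ 2 := by
    rw [Finset.sum_filter]
    refine Finset.sum_congr rfl fun ξ _ => ?_
    rw [ft_HF]
    split_ifs with h
    · rfl
    · simp
  have h3 : (3 : ℝ) ^ (N + 1) * ∑ x, HF N f x ^ 2 ≤ X ^ 2 := by
    rw [← h1, h2]
    exact hT _ fun ξ hξ => (Finset.mem_filter.1 hξ).2
  have h4 : (∑ x, |HF N f x|) ^ 2 ≤ X ^ 2 := by
    have h5 := sq_sum_le_card_mul_sum_sq (s := (Finset.univ : Finset (ZMod (3 ^ (N + 1)))))
      (f := fun x => |HF N f x|)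
    rw [Finset.card_univ, ZMod.card] at h5
    simp only [sq_abs] at h5
    push_cast at h5
    exact h5.trans h3
  exact le_of_sq_le_sq h4 hX

end Pool.Agent.WIR.H40
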