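import Pool.Agent.WIR.StmtsA

/-!
WIR, row TSP: separation of the triangles.
-/

namespace Pool.Agent.WIR.H40

open Pool.Agent.WIR

theorem small_of {N : ℕ} {m c : ℤ} (hm : |(m : ℝ)| ≤ eps * 3 ^ N) (hc0 : 0 ≤ c)
    (hc : c ≤ 18 ^ 12) : 2 * c * |m| < 3 ^ N := by
  have h3 : (0 : ℝ) < 3 ^ N := by positivity
  have h1 : 2 * (c : ℝ) * |(m : ℝ)| < 3 ^ N := by
    have hc' : (c : ℝ) ≤ 18 ^ 12 := by exact_mod_cast hc
    have hc0' : (0 : ℝ) ≤ c := by exact_mod_cast hc0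
    calc 2 * (c : ℝ) * |(m : ℝ)| ≤ 2 * 18 ^ 12 * (eps * 3 ^ N) := by
          refine mul_le_mul (by linarith) hm (abs_nonneg _) (by norm_num)
      _ = 3 ^ N / 50 := by
          unfold eps
          ring
      _ < 3 ^ N := by linarith
  have h2 : ((2 * c * |m| : ℤ) : ℝ) < ((3 ^ N : ℤ) : ℝ) := by
    push_cast
    exact h1
  exact_mod_cast h2

theorem pow_bd {a b : ℕ} (ha : a ≤ 12) (hb : b ≤ 12) : (9 : ℤ) ^ a * 2 ^ b ≤ 18 ^ 12 := by
  have h1 : (9 : ℤ) ^ a ≤ 9 ^ 12 := pow_le_pow_right₀ (by norm_num) ha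
  have h2 : (2 : ℤ) ^ b ≤ 2 ^ 12 := pow_le_pow_right₀ (by norm_num) hb
  calc (9 : ℤ) ^ a * 2 ^ b ≤ 9 ^ 12 * 2 ^ 12 := mul_le_mul h1 h2 (by positivity) (by positivity)
    _ = 18 ^ 12 := by norm_num

theorem tsp (hTNZ : TnzStmt) (hTMV : TmvStmt) (hTDV : TdvStmt) (hTSZ : TszStmt)
    (hTSB : TsbStmt) : TspStmt := by
  intro N t ξ j l j' l' q hu htN hq htri hb' h1 h2 h3 h4
  obtain ⟨hqm, hbk⟩ := hTSB N t ξ j l q hu htN hq htri
  obtain ⟨⟨hq1, hqh, hqs⟩, hodd, hcor⟩ := hq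
  obtain ⟨htq1, htq2, -⟩ := htri
  obtain ⟨hj1, hjh, hjs⟩ := hbk
  obtain ⟨hj1', hjh', hjs'⟩ := hb'
  obtain ⟨m, hm⟩ : ∃ m, m = mm N t ξ q.1 q.2 := ⟨_, rfl⟩
  obtain ⟨P, hP⟩ : ∃ P, P = mm N t ξ j l := ⟨_, rfl⟩
  obtain ⟨P', hP'⟩ : ∃ P', P' = mm N t ξ j' l' := ⟨_, rfl⟩
  obtain ⟨M, hM⟩ : ∃ M, M = max j j' := ⟨_, rfl⟩
  obtain ⟨μ, hμ⟩ : ∃ μ, μ = min l l' := ⟨_, rfl⟩
  have hMj : j ≤ M := by rw [hM]; exact le_max_left _ _
  have hMj' : j' ≤ M := by rw [hM]; exact le_max_right _ _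
  have hμl : μ ≤ l := by rw [hμ]; exact min_le_left _ _
  have hμl' : μ ≤ l' := by rw [hμ]; exact min_le_right _ _
  have hMc : M = j ∨ M = j' := by
    rw [hM]
    exact max_choice j j'
  have hμc : μ = l ∨ μ = l' := by
    rw [hμ]
    exact min_choice l l'
  rw [← hm] at hodd hqs hqm
  rw [← hP] at hqm hjs
  rw [← hP'] at hjs'
  have hm0 : m ≠ 0 := by
    rintro rfl
    exact (by decide : ¬ Odd (0 : ℤ)) hodd
  -- the common point
  have e1 : mm N t ξ M μ = 9 ^ (M - j) * 2 ^ (l - μ) * P := by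
    have h5 := hTMV N t ξ j μ (M - j) (l - μ) hj1
    rw [Nat.add_sub_cancel' hMj, Nat.add_sub_cancel' hμl, ← hP] at h5
    refine h5 (small_of hjs (by positivity) (pow_bd ?_ ?_))
    · omega
    · omega
  have e2 : mm N t ξ M μ = 9 ^ (M - j') * 2 ^ (l' - μ) * P' := by
    have h5 := hTMV N t ξ j' μ (M - j') (l' - μ) hj1'
    rw [Nat.add_sub_cancel' hMj', Nat.add_sub_cancel' hμl', ← hP'] at h5
    refine h5 (small_of hjs' (by positivity) (pow_bd ?_ ?_))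
    · omega
    · omega
  have hstar : 9 ^ (M - q.1) * 2 ^ (q.2 - μ) * m = 9 ^ (M - j') * 2 ^ (l' - μ) * P' := by
    rw [← e2, e1, hqm]
    have a1 : M - q.1 = (M - j) + (j - q.1) := by omega
    have a2 : q.2 - μ = (q.2 - l) + (l - μ) := by omega
    rw [a1, a2, pow_add, pow_add]
    ring
  -- (a)
  have ha : l' ≤ q.2 := by
    by_contra hlt
    push Not at hlt
    have a2 : l' - μ = (q.2 - μ) + (l' - q.2 - 1) + 1 := by omega
    rw [a2, pow_succ, pow_add] at hstar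
    have h5 : (2 : ℤ) ^ (q.2 - μ) * (9 ^ (M - q.1) * m) =
        2 ^ (q.2 - μ) * (2 * (9 ^ (M - j') * 2 ^ (l' - q.2 - 1) * P')) := by
      linear_combination hstar
    have h6 := mul_left_cancel₀ (pow_ne_zero _ two_ne_zero) h5
    have h7 : Odd ((9 : ℤ) ^ (M - q.1) * m) := (Odd.pow (by decide)).mul hodd
    rw [h6] at h7
    exact (Int.not_odd_iff_even.2 (even_two_mul _)) h7
  -- (b)
  have hb : q.1 ≤ j' := by
    by_contra hlt
    push Not at hlt
    have hMj2 : M = j := by omega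
    have a1 : M - j' = (M - q.1) + (q.1 - j') := by omega
    have a2 : q.2 - μ = (q.2 - l') + (l' - μ) := by omega
    rw [a1, a2, pow_add, pow_add] at hstar
    have h5 : (9 : ℤ) ^ (M - q.1) * 2 ^ (l' - μ) * (2 ^ (q.2 - l') * m) =
        9 ^ (M - q.1) * 2 ^ (l' - μ) * (9 ^ (q.1 - j') * P') := by
      linear_combination hstar
    have h6 := mul_left_cancel₀ (mul_ne_zero (pow_ne_zero _ (by norm_num))
      (pow_ne_zero _ two_ne_zero)) h5
    have hcop : IsCoprime ((9 : ℤ) ^ (q.1 - j')) (2 ^ (q.2 - l')) :=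
      IsCoprime.pow (by rw [Int.isCoprime_iff_gcd_eq_one]; decide)
    obtain ⟨w, hw⟩ : (9 : ℤ) ^ (q.1 - j') ∣ m := by
      refine hcop.dvd_of_dvd_mul_left ?_
      rw [h6]
      exact dvd_mul_right _ _
    have h7 : P' = 2 ^ (q.2 - l') * w := by
      have h8 : (9 : ℤ) ^ (q.1 - j') * P' = 9 ^ (q.1 - j') * (2 ^ (q.2 - l') * w) := by
        rw [← h6, hw]
        ring
      exact mul_left_cancel₀ (pow_ne_zero _ (by norm_num)) h8
    have h9 : mm N t ξ (q.1 - 1) l' = 9 ^ (q.1 - 1 - j') * P' := by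
      have h5 := hTMV N t ξ j' l' (q.1 - 1 - j') 0 hj1'
      have a3 : j' + (q.1 - 1 - j') = q.1 - 1 := by omega
      rw [a3, add_zero, ← hP', pow_zero, mul_one] at h5
      refine h5 (small_of hjs' (by positivity) ?_)
      have := pow_bd (a := q.1 - 1 - j') (b := 0) (by omega) (by omega)
      simpa using this
    obtain ⟨z, hz⟩ : ∃ z : ℤ, z = 9 ^ (q.1 - 1 - j') * w := ⟨_, rfl⟩
    have hmz : m = 9 * z := by
      have a4 : q.1 - j' = (q.1 - 1 - j') + 1 := by omega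
      rw [hw, hz, a4, pow_succ]
      ring
    have hzm : |(z : ℝ)| ≤ |(m : ℝ)| := by
      rw [hmz]
      push_cast
      rw [abs_mul]
      have : (1 : ℝ) ≤ |(9 : ℝ)| := by norm_num
      nlinarith [abs_nonneg (z : ℝ)]
    have hzs : |(z : ℝ)| ≤ eps * 3 ^ N := hzm.trans hqs
    have h10 : mm N t ξ (q.1 - 1) q.2 = z := by
      have h11 := hTDV N t ξ (q.1 - 1) l' (q.2 - l') z
        (by have := small_of (c := 1) hzs (by norm_num) (by norm_num); linarith)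
        (by rw [h9, h7, hz]; ring)
      rwa [Nat.add_sub_cancel' ha] at h11
    rcases hcor with h | h
    · omega
    · apply h
      refine ⟨by omega, by omega, ?_⟩
      rw [h10]
      exact hzs
  -- (c)
  have a1 : M - q.1 = (M - j') + (j' - q.1) := by omega
  have a2 : q.2 - μ = (q.2 - l') + (l' - μ) := by omega
  rw [a1, a2, pow_add, pow_add] at hstar
  have h5 : (9 : ℤ) ^ (M - j') * 2 ^ (l' - μ) * (9 ^ (j' - q.1) * 2 ^ (q.2 - l') * m) =
      9 ^ (M - j') * 2 ^ (l' - μ) * P' := by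
    linear_combination hstar
  have h6 := mul_left_cancel₀ (mul_ne_zero (pow_ne_zero _ (by norm_num))
    (pow_ne_zero _ two_ne_zero)) h5
  unfold siz
  rw [← hm]
  refine (hTSZ N q j' l' m hm0 hb ha).1 ?_
  rw [h6]
  exact hjs'

end Pool.Agent.WIR.H40
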